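import Mathlib

set_option autoImplicit false
open Set Filter Topology Metric Complex

namespace Pool.Agent.H.MP_d2819f_an

noncomputable def p : ℂ := ⟨-1242 / 260, 5144 / 260⟩
noncomputable def q : ℂ := ⟨-173 / 260, 111 / 260⟩
def s0 : ℂ := ⟨24, -10⟩
noncomputable def ph (z : ℂ) : ℂ := (p * z + s0) / (q * z + 1)
noncomputable def ps (s : ℂ) : ℂ := (s - s0) / (p - q * s)
noncomputable def g (s : ℂ) : ℂ := (s ^ 2 - s0 ^ 2) / 390
noncomputable def f (z : ℂ) : ℂ := g (ph z)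
def Δ : Set ℂ := ball ⟨33, 3⟩ 20

lemma mem_Δ {s : ℂ} : s ∈ Δ ↔ (s.re - 33) ^ 2 + (s.im - 3) ^ 2 < 400 := by
  rw [Δ, mem_ball, Complex.dist_eq_re_im, Real.sqrt_lt' (by norm_num)]; norm_num

lemma mem_b {z : ℂ} {r : ℝ} (hr : 0 < r) : z ∈ ball (0 : ℂ) r ↔ normSq z < r ^ 2 := by
  rw [mem_ball_zero_iff, normSq_eq_norm_sq, sq_lt_sq₀ (norm_nonneg _) hr.le]

lemma den1 {z : ℂ} (h : z ∈ ball (0 : ℂ) 1) : 0 < normSq (q * z + 1) := by
  rw [mem_b one_pos] at h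
  simp [q, normSq_apply] at h ⊢
  nlinarith [sq_nonneg (8 * (-173 / 260 * z.re - 111 / 260 * z.im) + 5),
    sq_nonneg (-173 / 260 * z.im + 111 / 260 * z.re)]

lemma ph_mem {z : ℂ} (h : z ∈ ball (0 : ℂ) 1) : ph z ∈ Δ := by
  have d := den1 h
  have e : ph z - ⟨33, 3⟩ = (p * z + s0 - ⟨33, 3⟩ * (q * z + 1)) / (q * z + 1) := by
    rw [ph, sub_div, mul_div_cancel_right₀ _ (normSq_pos.1 d)]
  rw [Δ, mem_ball, dist_eq_norm, ← mem_ball_zero_iff, mem_b (by norm_num), e, map_div₀, div_lt_iff₀ d]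
  rw [mem_b one_pos] at h
  simp [p, q, s0, normSq_apply] at h ⊢
  nlinarith

lemma den2 {s : ℂ} (h : s ∈ Δ) : normSq (s - s0) < normSq (p - q * s) := by
  rw [mem_Δ] at h
  simp [p, q, s0, normSq_apply]
  nlinarith

lemma den3 {s : ℂ} (h : s ∈ Δ) : p - q * s ≠ 0 :=
  normSq_pos.1 ((normSq_nonneg _).trans_lt (den2 h))

lemma pq : p - q * s0 ≠ 0 := den3 (mem_Δ.2 (by norm_num [s0]))

lemma ph_ps {s : ℂ} (h : s ∈ Δ) : ph (ps s) = s := by
  have h1 := den3 h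
  rw [ph, ps, show q * ((s - s0) / (p - q * s)) + 1 = (p - q * s0) / (p - q * s) by
      rw [eq_div_iff h1, add_mul, mul_assoc, div_mul_cancel₀ _ h1]; ring,
    show p * ((s - s0) / (p - q * s)) + s0 = s * (p - q * s0) / (p - q * s) by
      rw [eq_div_iff h1, add_mul, mul_assoc, div_mul_cancel₀ _ h1]; ring,
    div_div_div_cancel_right₀ h1, mul_div_cancel_right₀ _ pq]

lemma ps_ph {z : ℂ} (h : z ∈ ball (0 : ℂ) 1) : ps (ph z) = z := by
  have h1 := normSq_pos.1 (den1 h)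
  rw [ps, ph, show p - q * ((p * z + s0) / (q * z + 1)) = (p - q * s0) / (q * z + 1) by
      rw [eq_div_iff h1, sub_mul, mul_assoc, div_mul_cancel₀ _ h1]; ring,
    show (p * z + s0) / (q * z + 1) - s0 = z * (p - q * s0) / (q * z + 1) by
      rw [eq_div_iff h1, sub_mul, div_mul_cancel₀ _ h1]; ring,
    div_div_div_cancel_right₀ h1, mul_div_cancel_right₀ _ pq]

lemma re_pos {s : ℂ} (h : s ∈ Δ) : |s.im| < s.re := by
  rw [mem_Δ] at h
  rw [abs_lt]; constructor <;> nlinarith [sq_nonneg (s.re - 33 - (s.im - 3)), sq_nonneg (s.re - 33 + (s.im - 3))]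

lemma g_inj : InjOn g Δ := fun a ha b hb e => by
  have h : a ^ 2 = b ^ 2 := by unfold g at e; linear_combination 390 * e
  rcases sq_eq_sq_iff_eq_or_eq_neg.1 h with h | h
  · exact h
  · have := congrArg re h
    simp at this
    linarith [(abs_nonneg _).trans_lt (re_pos ha), (abs_nonneg _).trans_lt (re_pos hb)]

lemma img : f '' ball 0 1 = g '' Δ := by
  refine Subset.antisymm (by rintro _ ⟨z, hz, rfl⟩; exact ⟨_, ph_mem hz, rfl⟩) ?_
  rintro _ ⟨s, hs, rfl⟩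
  refine ⟨ps s, (mem_b one_pos).2 ?_, by rw [f, ph_ps hs]⟩
  rw [ps, map_div₀, div_lt_iff₀ (normSq_pos.2 (den3 hs))]
  simpa using den2 hs

lemma f_diff : DifferentiableOn ℂ f (ball 0 1) := by
  unfold f g ph
  fun_prop (disch := exact fun z hz => normSq_pos.1 (den1 hz))

lemma f_inj : InjOn f (ball 0 1) := fun a ha b hb e => by
  rw [← ps_ph ha, g_inj (ph_mem ha) (ph_mem hb) e, ps_ph hb]

lemma f_deriv : deriv f 0 = 1 := by
  have h : HasDerivAt ph _ 0 := (((hasDerivAt_id (0 : ℂ)).const_mul p).add_const s0).div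
    (((hasDerivAt_id (0 : ℂ)).const_mul q).add_const 1) (by simp)
  rw [show f = fun z => (ph z ^ 2 - s0 ^ 2) / 390 from rfl,
    (((h.fun_pow 2).sub_const _).div_const _).deriv]
  simp [ph, Complex.ext_iff, p, q, s0]
  norm_num

lemma g_re (s : ℂ) : (g s).re = (s.re ^ 2 - s.im ^ 2 - 476) / 390 := by
  simp [g, s0, sq]; norm_num

lemma g_im (s : ℂ) : (g s).im = (s.re * s.im + 240) / 195 := by
  simp [g, s0, sq]; ring

lemma cia (c₀ : ℝ) : IsPreconnected (g '' Δ ∩ {w | w.re = c₀}) := by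
  set c := 390 * c₀ + 476 with hc
  let P : ℝ → ℝ := fun v => (c - 36 * v) ^ 2 + v ^ 2 * (v - 30) ^ 2 - 800 * v ^ 2
  let σ : ℝ → ℂ := fun v => ⟨(c / v + v) / 2, (c / v - v) / 2⟩
  have key : ∀ v, 0 < v → (σ v ∈ Δ ↔ P v < 0) := fun v hv => by
    rw [mem_Δ, show P v = 2 * v ^ 2 * (((c / v + v) / 2 - 33) ^ 2 + ((c / v - v) / 2 - 3) ^ 2 - 400) by
      simp only [P]; field_simp; ring, ← sub_neg]
    exact ⟨fun h => mul_neg_of_pos_of_neg (by positivity) h,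
      fun h => neg_of_mul_neg_right h (by positivity)⟩
  have e : g '' Δ ∩ {w | w.re = c₀} = (fun v => g (σ v)) '' {v | 0 < v ∧ P v < 0} := by
    ext w
    constructor
    · rintro ⟨⟨s, hs, rfl⟩, h⟩
      have v0 : 0 < s.re - s.im := sub_pos.2 (lt_of_abs_lt (re_pos hs))
      have e : σ (s.re - s.im) = s := by
        have : c / (s.re - s.im) = s.re + s.im := by
          rw [div_eq_iff v0.ne', hc, ← show _ = c₀ from h, g_re]; ring
        simp only [σ, this]; exact Complex.ext (by ring) (by ring)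
      exact ⟨_, ⟨v0, (key _ v0).1 (e.symm ▸ hs)⟩, by simp only [e]⟩
    · rintro ⟨v, ⟨v0, hv⟩, rfl⟩
      refine ⟨⟨_, (key v v0).2 hv, rfl⟩, ?_⟩
      simp only [mem_ofPred_eq, g_re, σ]
      field_simp; ring
  rw [e]
  refine IsPreconnected.image (OrdConnected.isPreconnected ⟨?_⟩) _ ?_
  · rintro a ⟨a0, ha⟩ b ⟨-, hb⟩ v ⟨h1, h2⟩
    refine ⟨by linarith, ?_⟩
    rcases (h1.trans h2).eq_or_lt with rfl | hab
    · rwa [le_antisymm h2 h1]
    have id : (b - a) * P v = (b - v) * P a + (v - a) * P b - (b - v) * (v - a) * (b - a) *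
        (a ^ 2 + v ^ 2 + b ^ 2 + a * v + a * b + v * b - 60 * (a + v + b) + 1396) := by
      simp only [P]; ring
    have Q : 0 ≤ a ^ 2 + v ^ 2 + b ^ 2 + a * v + a * b + v * b - 60 * (a + v + b) + 1396 := by
      nlinarith [sq_nonneg (a - v), sq_nonneg (a - b), sq_nonneg (v - b), sq_nonneg (a + v + b - 45)]
    have := mul_nonneg (mul_nonneg (mul_nonneg (sub_nonneg.2 h2) (sub_nonneg.2 h1))
      (sub_pos.2 hab).le) Q
    have m : (b - v) * P a + (v - a) * P b ≤ (b - a) * max (P a) (P b) := by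
      nlinarith [le_max_left (P a) (P b), le_max_right (P a) (P b)]
    have := mul_neg_of_pos_of_neg (sub_pos.2 hab) (max_lt ha hb)
    by_contra h
    nlinarith [mul_nonneg (sub_pos.2 hab).le (not_lt.1 h)]
  · have : σ = fun v => (((c / v + v) / 2 : ℝ) : ℂ) + ((c / v - v) / 2 : ℝ) * I := by
      ext1 v; exact (re_add_im (σ v)).symm
    unfold g
    rw [this]
    fun_prop (disch := first | (rintro v ⟨h, -⟩; exact h.ne') | simp)

lemma up : IsPreconnected {s | s ∈ Δ ∧ -240 < s.re * s.im} := by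
  have cv : Convex ℝ Δ := convex_ball _ _
  have m : (⟨33, 3⟩ : ℂ) ∈ Δ := mem_ball_self (by norm_num)
  refine isPreconnected_of_forall ⟨33, 3⟩ fun s ⟨hs, h⟩ => ?_
  have m2 : (⟨s.re, 3⟩ : ℂ) ∈ Δ := by
    rw [mem_Δ] at hs ⊢; simp only; nlinarith [sq_nonneg (s.im - 3)]
  have x0 := (abs_nonneg _).trans_lt (re_pos hs)
  refine ⟨segment ℝ ⟨33, 3⟩ ⟨s.re, 3⟩ ∪ segment ℝ ⟨s.re, 3⟩ s, ?_, Or.inl (left_mem_segment _ _ _),
    Or.inr (right_mem_segment _ _ _), (convex_segment _ _).isPreconnected.union _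
      (right_mem_segment _ _ _) (left_mem_segment _ _ _) (convex_segment _ _).isPreconnected⟩
  rintro z (hz | hz)
  · refine ⟨cv.segment_subset m m2 hz, ?_⟩
    obtain ⟨a, b, a0, b0, ab, rfl⟩ := hz
    simp
    have : 0 ≤ (a * 33 + b * s.re) * (a * 3 + b * 3) := by positivity
    linarith
  · refine ⟨cv.segment_subset m2 hs hz, ?_⟩
    obtain ⟨a, b, a0, b0, ab, rfl⟩ := hz
    obtain rfl : a = 1 - b := by linarith
    simp
    nlinarith [mul_nonneg a0 x0.le, mul_nonneg b0 (sub_pos.2 h).le]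

lemma low : IsPreconnected {s | s ∈ Δ ∧ s.re * s.im < -240} := by
  refine Convex.isPreconnected fun s ⟨hs, h⟩ t ⟨ht, h'⟩ a b a0 b0 ab =>
    ⟨convex_ball _ _ hs ht a0 b0 ab, ?_⟩
  have x0 := (abs_nonneg _).trans_lt (re_pos hs)
  have x1 := (abs_nonneg _).trans_lt (re_pos ht)
  have k : s.re * t.im + t.re * s.im ≤ -480 := by
    by_contra hc
    nlinarith [mul_pos (sub_pos.2 (not_le.1 hc)) (mul_pos x0 x1), sq_nonneg (s.re - t.re),
      mul_pos (sub_pos.2 h) (pow_pos x1 2), mul_pos (sub_pos.2 h') (pow_pos x0 2)]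
  have m := max_lt h h'
  obtain rfl : a = 1 - b := by linarith
  simp
  nlinarith [mul_nonneg (sq_nonneg b) (sub_nonneg.2 (le_max_right (s.re * s.im) (t.re * t.im))),
    mul_nonneg (sq_nonneg (1 - b)) (sub_nonneg.2 (le_max_left (s.re * s.im) (t.re * t.im))),
    mul_nonneg (mul_nonneg a0 b0) (sub_nonneg.2 k), mul_nonneg a0 b0, sq_nonneg (1 - 2 * b),
    mul_pos (sub_pos.2 m) (show 0 < (1 - b) ^ 2 + b ^ 2 by nlinarith)]

lemma slit (w : ℂ) (hw : w ∈ g '' Δ) (h : w.im ≠ 0) :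
    0 ∈ frontier (connectedComponentIn (g '' Δ \ {w | w.im = 0}) w) := by
  have gc : Continuous g := by unfold g; fun_prop
  have key : ∀ (T : Set ℂ) (ε : ℝ), IsPreconnected T → w ∈ g '' T → (∀ s ∈ T, s ∈ Δ ∧ (g s).im ≠ 0) →
      (∀ t ∈ Ioo (0 : ℝ) 1, s0 + (ε * t : ℝ) * I ∈ T) →
      0 ∈ frontier (connectedComponentIn (g '' Δ \ {w | w.im = 0}) w) := fun T ε hT hw hs ht => by
    refine ⟨closure_mono ((hT.image g gc.continuousOn).subset_connectedComponentIn hw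
      (by rintro _ ⟨s, h, rfl⟩; exact ⟨⟨s, (hs s h).1, rfl⟩, (hs s h).2⟩)) ?_,
      fun h => (connectedComponentIn_subset _ _ (interior_subset h)).2 rfl⟩
    have c : Continuous fun t : ℝ => g (s0 + (ε * t : ℝ) * I) := by fun_prop
    have := (c.tendsto 0).mono_left (nhdsWithin_le_nhds (s := Ioi 0))
    rw [show g (s0 + (ε * (0 : ℝ) : ℝ) * I) = 0 by simp [g]] at this
    exact mem_closure_of_tendsto this (mem_of_superset (Ioo_mem_nhdsGT one_pos)
      fun t h => ⟨_, ht t h, rfl⟩)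
  obtain ⟨s, hs, rfl⟩ := hw
  rw [g_im] at h
  rcases lt_or_gt_of_ne (show s.re * s.im ≠ -240 from fun e => h (by rw [e]; norm_num)) with h | h
  · refine key _ (-1) low ⟨s, ⟨hs, h⟩, rfl⟩ (fun s h => ⟨h.1, by rw [g_im]; linarith [h.2]⟩)
      fun t ⟨t0, t1⟩ => ⟨mem_Δ.2 ?_, ?_⟩ <;> simp [s0] <;> nlinarith
  · refine key _ 1 up ⟨s, ⟨hs, h⟩, rfl⟩ (fun s h => ⟨h.1, by rw [g_im]; linarith [h.2]⟩)
      fun t ⟨t0, t1⟩ => ⟨mem_Δ.2 ?_, ?_⟩ <;> simp [s0] <;> nlinarith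

lemma ncia : ¬ IsPreconnected (f '' ball 0 (9477 / 10000) ∩ {w | w.re = -2 / 3}) := fun h => by
  have mem : ∀ s ∈ Δ, g s ∈ f '' ball 0 (9477 / 10000) ↔
      normSq (s - s0) < (9477 / 10000) ^ 2 * normSq (p - q * s) := fun s hs => by
    rw [← div_lt_iff₀ (normSq_pos.2 (den3 hs)), ← map_div₀, ← mem_b (by norm_num)]
    refine ⟨?_, fun h => ⟨_, h, by rw [f]; exact congrArg g (ph_ps hs)⟩⟩
    rintro ⟨z, hz, e⟩
    have hz1 := ball_subset_ball (by norm_num : (9477 / 10000 : ℝ) ≤ 1) hz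
    rw [← g_inj (ph_mem hz1) hs e]
    rwa [← ps_ph hz1] at hz
  have oc := (h.image im continuous_im.continuousOn).ordConnected
  have m : ∀ y : ℝ, y ^ 2 = 9 → (g ⟨15, y⟩).im ∈ im '' (f '' ball 0 (9477 / 10000) ∩
      {w | w.re = -2 / 3}) := fun y hy => by
    have : y = 3 ∨ y = -3 := sq_eq_sq_iff_eq_or_eq_neg.1 (by rw [hy]; norm_num)
    refine ⟨_, ⟨(mem _ (mem_Δ.2 ?_)).2 ?_, ?_⟩, rfl⟩ <;> rcases this with rfl | rfl <;>
      norm_num [g_re, p, q, s0, normSq_apply]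
  obtain ⟨w, ⟨hw, h1⟩, h2⟩ := oc.out (m (-3) (by norm_num)) (m 3 (by norm_num))
    (show (g ⟨59 / 4, 5 / 4⟩).im ∈ _ by norm_num [g_im])
  rw [show w = g ⟨59 / 4, 5 / 4⟩ from Complex.ext (by rw [h1]; norm_num [g_re]) h2,
    mem _ (mem_Δ.2 (by norm_num))] at hw
  norm_num [p, q, s0, normSq_apply] at hw

end Pool.Agent.H.MP_d2819f_an
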